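import Pool.Agent.H20.KA.TRC

/-!
# Tubes
-/

set_option autoImplicit false

namespace Pool.KA

open Finset Real
open Pool.Agent.H49.Ent Pool.Agent.H32.Dense Pool.STK

namespace TUB

variable {m J : ℕ}

/-- Splitting of a real number. -/
lemma split_pow (q : ℕ) (a : ℝ) : a = ((⌊(2 : ℝ) ^ q * a⌋ : ℝ) + Int.fract (2 ^ q * a)) / 2 ^ q := by
  have h := Int.floor_add_fract ((2 : ℝ) ^ q * a)
  rw [h]
  field_simp

/-- The fractional parts and the floors determine the number. -/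
lemma eq_of_parts {q : ℕ} {a b : ℝ} (h1 : ⌊(2 : ℝ) ^ q * a⌋ = ⌊(2 : ℝ) ^ q * b⌋)
    (h2 : Int.fract ((2 : ℝ) ^ q * a) = Int.fract (2 ^ q * b)) : a = b := by
  rw [split_pow q a, split_pow q b, h1, h2]

/-- Digits of the fractional part. -/
lemma floor_fract (q j : ℕ) (a : ℝ) :
    ⌊(2 : ℝ) ^ j * Int.fract (2 ^ q * a)⌋ = ⌊(2 : ℝ) ^ (q + j) * a⌋ - 2 ^ j * ⌊(2 : ℝ) ^ q * a⌋ := by
  have h : (2 : ℝ) ^ j * Int.fract (2 ^ q * a) =
      2 ^ (q + j) * a - ((2 ^ j * ⌊(2 : ℝ) ^ q * a⌋ : ℤ) : ℝ) := by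
    have h1 := Int.self_sub_floor ((2 : ℝ) ^ q * a)
    rw [← h1]
    push_cast
    rw [pow_add]
    ring
  rw [h, Int.floor_sub_intCast]

end TUB

open TRC TUB

theorem tub_thm : TUBStmt := by
  intro m
  refine ⟨cc m, ?_, ?_⟩
  · unfold cc
    exact mul_nonneg (by positivity) (Real.log_nonneg (by norm_num))
  intro J F q hq e he
  have hp := F.isLaw
  have hp0 := hp.nonneg
  have hq' : (((J - q : ℕ) : ℝ)) = (J : ℝ) - q := by
    rw [Nat.cast_sub hq]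
  -- the coarse time
  set T' : F.Ω → ℕ := fun ω => F.T ω / 2 ^ q with hT'
  have hdet : Det F.p F.T T' := fun ω ω' _ _ h => by
    change F.T ω = F.T ω' at h
    simp only [hT', h]
  have hT'lt : ∀ ω, T' ω < 2 ^ (J - q) := (F.tub q hq).tim
  unfold Fam.Tm at he
  -- splitting of the time
  have c1 : CH F.p F.T (fun ω => (F.l ω, F.Z ω)) = CH F.p T' (fun ω => (F.l ω, F.Z ω)) +
      CH F.p F.T (fun ω => (T' ω, (F.l ω, F.Z ω))) := by
    rw [← CH_chain hp0]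
    refine CH_congr hp0 ?_ ?_ (fun _ _ _ _ h => h) (fun _ _ _ _ h => h)
    · intro ω ω' a b h
      have h1 : F.T ω = F.T ω' := (Prod.ext_iff.mp h).1
      exact Prod.ext h1 (hdet ω ω' a b h1)
    · intro ω ω' _ _ h
      exact (Prod.ext_iff.mp (Prod.ext_iff.mp h).1).1
  have c2 : CH F.p F.T (fun ω => (T' ω, (F.l ω, F.Z ω))) ≤ q * Real.log 2 :=
    CH_div hp F.T (fun ω => (F.l ω, F.Z ω)) q
  have c3 : CH F.p T' (fun ω => (F.l ω, F.Z ω)) ≤ ((J : ℝ) - q) * Real.log 2 := by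
    rw [← hq']
    exact CH_lt hp T' _ (J - q) hT'lt
  -- the zoomed line with the coarse line is the line
  have hline : ∀ ω ω', (F.tub q hq).l ω = (F.tub q hq).l ω' → F.L q ω = F.L q ω' →
      F.l ω = F.l ω' := by
    intro ω ω' h1 h2
    have u1 := congrFun (Prod.ext_iff.mp h1).1
    have d1 := congrFun (Prod.ext_iff.mp h1).2
    have u2 := congrFun (Prod.ext_iff.mp h2).1
    have d2 := congrFun (Prod.ext_iff.mp h2).2
    refine Prod.ext ?_ ?_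
    · funext i
      exact eq_of_parts (q := q) (u2 i) (u1 i)
    · funext i
      exact eq_of_parts (q := q) (d2 i) (d1 i)
  have hLdet : ∀ ω ω', F.l ω = F.l ω' → F.L q ω = F.L q ω' ∧
      (F.tub q hq).l ω = (F.tub q hq).l ω' := by
    intro ω ω' h
    have hu : F.u ω = F.u ω' := (Prod.ext_iff.mp h).1
    have hd : F.d ω = F.d ω' := (Prod.ext_iff.mp h).2
    constructor
    · change (fl q (F.u ω), fl q (F.d ω)) = (fl q (F.u ω'), fl q (F.d ω'))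
      rw [hu, hd]
    · change ((fun i => Int.fract (2 ^ q * F.u ω i)), (fun i => Int.fract (2 ^ q * F.d ω i))) =
        ((fun i => Int.fract (2 ^ q * F.u ω' i)), (fun i => Int.fract (2 ^ q * F.d ω' i)))
      rw [hu, hd]
  refine ⟨?_, ?_⟩
  · unfold Fam.Tm
    rw [hq']
    change ((J : ℝ) - q) * Real.log 2 - e ≤
      CH F.p T' (fun ω => ((F.tub q hq).l ω, (F.L q ω, F.Z ω)))
    have h1 : CH F.p T' (fun ω => ((F.tub q hq).l ω, (F.L q ω, F.Z ω))) =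
        CH F.p T' (fun ω => (F.l ω, F.Z ω)) := by
      refine CH_congr hp0 (fun _ _ _ _ h => (Prod.ext_iff.mp h).1)
        (fun _ _ _ _ h => (Prod.ext_iff.mp h).1) ?_ ?_
      · intro ω ω' _ _ h
        simp only [Prod.mk.injEq] at h
        exact Prod.ext (hline ω ω' h.1 h.2.1) h.2.2
      · intro ω ω' _ _ h
        simp only [Prod.mk.injEq] at h
        have h2 := hLdet ω ω' h.1
        exact Prod.ext h2.2 (Prod.ext h2.1 h.2)
    rw [h1]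
    linarith
  intro j hj
  set Y : F.Ω → Fin m → ℤ := (F.tub q hq).X j with hY
  set Z' : F.Ω → ((Fin m → ℤ) × (Fin m → ℤ)) × F.ζ := fun ω => (F.L q ω, F.Z ω) with hZ'
  -- the position in the tube, given the coarse or the fine time
  have hYdet : Det F.p (fun ω => (F.l ω, (T' ω, Z' ω))) Y := by
    intro ω ω' _ _ h
    have h1 : F.l ω = F.l ω' := (Prod.ext_iff.mp h).1
    have h2 : T' ω = T' ω' := (Prod.ext_iff.mp (Prod.ext_iff.mp h).2).1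
    have h3 : F.u ω = F.u ω' := (Prod.ext_iff.mp h1).1
    have h4 : F.d ω = F.d ω' := (Prod.ext_iff.mp h1).2
    change fl j (fun i => Int.fract (2 ^ q * F.u ω i) +
        (T' ω : ℝ) / 2 ^ (J - q) * Int.fract (2 ^ q * F.d ω i)) =
      fl j (fun i => Int.fract (2 ^ q * F.u ω' i) +
        (T' ω' : ℝ) / 2 ^ (J - q) * Int.fract (2 ^ q * F.d ω' i))
    rw [h2, h3, h4]
  have c4 : CH F.p F.T (fun ω => (T' ω, Z' ω)) ≤ q * Real.log 2 := CH_div hp F.T Z' q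
  have d1 : CH F.p Y (fun ω => (F.T ω, (T' ω, Z' ω))) = CH F.p Y (fun ω => (F.T ω, Z' ω)) := by
    refine CH_congr hp0 (fun _ _ _ _ h => (Prod.ext_iff.mp h).1)
      (fun _ _ _ _ h => (Prod.ext_iff.mp h).1) ?_ ?_
    · intro ω ω' _ _ h
      have h1 := Prod.ext_iff.mp h
      exact Prod.ext h1.1 (Prod.ext_iff.mp h1.2).2
    · intro ω ω' a b h
      have h1 : F.T ω = F.T ω' := (Prod.ext_iff.mp h).1
      have h2 : Z' ω = Z' ω' := (Prod.ext_iff.mp h).2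
      exact Prod.ext h1 (Prod.ext (hdet ω ω' a b h1) h2)
  have d2 := CH_bayes hp0 Y F.T (fun ω => (T' ω, Z' ω))
  have d3 : CH F.p F.T (fun ω => (F.l ω, (T' ω, Z' ω))) ≤
      CH F.p F.T (fun ω => (Y ω, (T' ω, Z' ω))) := by
    refine CH_mono_cond hp0 ?_
    intro ω ω' a b h
    exact Prod.ext (hYdet ω ω' a b h) (Prod.ext_iff.mp h).2
  have d4 : CH F.p F.T (fun ω => (F.l ω, (T' ω, Z' ω))) =
      CH F.p F.T (fun ω => (T' ω, (F.l ω, F.Z ω))) := by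
    refine CH_congr hp0 (fun _ _ _ _ h => (Prod.ext_iff.mp h).1)
      (fun _ _ _ _ h => (Prod.ext_iff.mp h).1) ?_ ?_
    · intro ω ω' _ _ h
      simp only [hZ', Prod.mk.injEq] at h ⊢
      exact ⟨h.2.1, h.1, h.2.2.2⟩
    · intro ω ω' _ _ h
      simp only [hZ', Prod.mk.injEq] at h ⊢
      exact ⟨h.2.1, h.1, (hLdet ω ω' h.2.1).1, h.2.2⟩
  have d5 : CH F.p Y (fun ω => (F.T ω, Z' ω)) ≤ CH F.p Y (fun ω => (T' ω, Z' ω)) := by
    refine CH_mono_cond hp0 ?_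
    intro ω ω' a b h
    have h1 : F.T ω = F.T ω' := (Prod.ext_iff.mp h).1
    have h2 : Z' ω = Z' ω' := (Prod.ext_iff.mp h).2
    exact Prod.ext (hdet ω ω' a b h1) h2
  have d6 : CH F.p Y (fun ω => (T' ω, Z' ω)) ≤ CH F.p Y (fun ω => (F.T ω, Z' ω)) + e := by
    rw [d1] at d2
    linarith
  -- the two positions are close
  have hclose : ∀ ω k, |(2 : ℝ) ^ j * (Int.fract (2 ^ q * F.u ω k) +
        (T' ω : ℝ) / 2 ^ (J - q) * Int.fract (2 ^ q * F.d ω k)) -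
      (2 ^ (j + q) * (F.u ω k + (F.T ω : ℝ) / 2 ^ J * F.d ω k) -
        2 ^ j * ((⌊(2 : ℝ) ^ q * F.u ω k⌋ : ℝ) +
          (F.T ω : ℝ) / 2 ^ J * (⌊(2 : ℝ) ^ q * F.d ω k⌋ : ℝ)))| ≤ 1 := by
    intro ω k
    have e0 := Int.self_sub_floor ((2 : ℝ) ^ q * F.u ω k)
    have e0' := Int.self_sub_floor ((2 : ℝ) ^ q * F.d ω k)
    have e1 : (2 : ℝ) ^ j * (Int.fract (2 ^ q * F.u ω k) +
        (T' ω : ℝ) / 2 ^ (J - q) * Int.fract (2 ^ q * F.d ω k)) -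
      (2 ^ (j + q) * (F.u ω k + (F.T ω : ℝ) / 2 ^ J * F.d ω k) -
        2 ^ j * ((⌊(2 : ℝ) ^ q * F.u ω k⌋ : ℝ) +
          (F.T ω : ℝ) / 2 ^ J * (⌊(2 : ℝ) ^ q * F.d ω k⌋ : ℝ))) =
        2 ^ j * ((T' ω : ℝ) / 2 ^ (J - q) - (F.T ω : ℝ) / 2 ^ J) *
          Int.fract (2 ^ q * F.d ω k) := by
      rw [pow_add, ← e0, ← e0']
      ring
    have e2 : (2 : ℝ) ^ J = 2 ^ q * 2 ^ (J - q) := by
      rw [← pow_add, Nat.add_sub_cancel' hq]
    have hdm := Nat.div_add_mod (F.T ω) (2 ^ q)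
    have hml := Nat.mod_lt (F.T ω) (y := 2 ^ q) (by positivity)
    have e3 : (F.T ω : ℝ) = 2 ^ q * (T' ω : ℝ) + ((F.T ω % 2 ^ q : ℕ) : ℝ) := by
      rw [hT']
      exact_mod_cast hdm.symm
    have e4 : ((F.T ω % 2 ^ q : ℕ) : ℝ) < 2 ^ q := by exact_mod_cast hml
    have e5 : (0 : ℝ) ≤ ((F.T ω % 2 ^ q : ℕ) : ℝ) := by positivity
    have p1 : (0 : ℝ) < 2 ^ q := by positivity
    have p2 : (0 : ℝ) < 2 ^ (J - q) := by positivity
    have e6 : (T' ω : ℝ) / 2 ^ (J - q) - (F.T ω : ℝ) / 2 ^ J =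
        -(((F.T ω % 2 ^ q : ℕ) : ℝ) / 2 ^ q / 2 ^ (J - q)) := by
      rw [e2]
      field_simp
      linarith
    have f0 : 0 ≤ Int.fract ((2 : ℝ) ^ q * F.d ω k) := Int.fract_nonneg _
    have f1 : Int.fract ((2 : ℝ) ^ q * F.d ω k) ≤ 1 := (Int.fract_lt_one _).le
    rw [e1, e6, abs_mul, abs_mul, abs_neg, abs_of_nonneg (a := (2 : ℝ) ^ j) (by positivity),
      abs_of_nonneg (a := ((F.T ω % 2 ^ q : ℕ) : ℝ) / 2 ^ q / 2 ^ (J - q)) (by positivity),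
      abs_of_nonneg f0]
    have e7 : ((F.T ω % 2 ^ q : ℕ) : ℝ) / 2 ^ q ≤ 1 := by
      rw [div_le_one p1]
      exact e4.le
    have e8 : (2 : ℝ) ^ j * (((F.T ω % 2 ^ q : ℕ) : ℝ) / 2 ^ q / 2 ^ (J - q)) ≤ 1 := by
      have hj' : j ≤ J - q := by omega
      have e9 : (2 : ℝ) ^ j ≤ 2 ^ (J - q) := pow_le_pow_right₀ (by norm_num) hj'
      have e10 : ((F.T ω % 2 ^ q : ℕ) : ℝ) / 2 ^ q / 2 ^ (J - q) ≤ 1 / 2 ^ (J - q) :=
        div_le_div_of_nonneg_right e7 p2.le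
      calc (2 : ℝ) ^ j * (((F.T ω % 2 ^ q : ℕ) : ℝ) / 2 ^ q / 2 ^ (J - q)) ≤
          2 ^ (J - q) * (1 / 2 ^ (J - q)) := mul_le_mul e9 e10 (by positivity) p2.le
        _ = 1 := by field_simp
    calc _ ≤ (1 : ℝ) * 1 := mul_le_mul e8 f1 f0 (by norm_num)
      _ = 1 := by norm_num
  -- shifts known from the condition
  have hshift : ∀ ω ω', (F.T ω, Z' ω) = (F.T ω', Z' ω') → ∀ k,
      (2 : ℝ) ^ j * ((⌊(2 : ℝ) ^ q * F.u ω k⌋ : ℝ) +
          (F.T ω : ℝ) / 2 ^ J * (⌊(2 : ℝ) ^ q * F.d ω k⌋ : ℝ)) =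
      2 ^ j * ((⌊(2 : ℝ) ^ q * F.u ω' k⌋ : ℝ) +
          (F.T ω' : ℝ) / 2 ^ J * (⌊(2 : ℝ) ^ q * F.d ω' k⌋ : ℝ)) := by
    intro ω ω' h k
    have h1 : F.T ω = F.T ω' := (Prod.ext_iff.mp h).1
    have h2 : F.L q ω = F.L q ω' := (Prod.ext_iff.mp (Prod.ext_iff.mp h).2).1
    have u2 : ⌊(2 : ℝ) ^ q * F.u ω k⌋ = ⌊(2 : ℝ) ^ q * F.u ω' k⌋ :=
      congrFun (Prod.ext_iff.mp h2).1 k
    have d2 : ⌊(2 : ℝ) ^ q * F.d ω k⌋ = ⌊(2 : ℝ) ^ q * F.d ω' k⌋ :=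
      congrFun (Prod.ext_iff.mp h2).2 k
    rw [h1, u2, d2]
  have f1 : CH F.p Y (fun ω => (F.T ω, Z' ω)) ≤
      CH F.p (F.X (j + q)) (fun ω => (F.T ω, Z' ω)) + cc m := by
    refine CH_le_round hp Y (F.X (j + q)) (fun ω => (F.T ω, Z' ω)) fun ω ω' _ _ hW h k => ?_
    have h1 := congrFun h k
    have h2 : ⌊(2 : ℝ) ^ (j + q) * (F.u ω k + (F.T ω : ℝ) / 2 ^ J * F.d ω k)⌋ =
        ⌊(2 : ℝ) ^ (j + q) * (F.u ω' k + (F.T ω' : ℝ) / 2 ^ J * F.d ω' k)⌋ := h1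
    have h3 := hclose ω k
    have h4 := hclose ω' k
    rw [hshift ω ω' hW k] at h3
    change |((⌊(2 : ℝ) ^ j * (Int.fract (2 ^ q * F.u ω k) +
        (T' ω : ℝ) / 2 ^ (J - q) * Int.fract (2 ^ q * F.d ω k))⌋ -
      ⌊(2 : ℝ) ^ j * (Int.fract (2 ^ q * F.u ω' k) +
        (T' ω' : ℝ) / 2 ^ (J - q) * Int.fract (2 ^ q * F.d ω' k))⌋ : ℤ) : ℝ)| ≤ 49
    have a1 := Int.floor_le ((2 : ℝ) ^ (j + q) * (F.u ω k + (F.T ω : ℝ) / 2 ^ J * F.d ω k))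
    have a2 := Int.lt_floor_add_one
      ((2 : ℝ) ^ (j + q) * (F.u ω k + (F.T ω : ℝ) / 2 ^ J * F.d ω k))
    have b1 := Int.floor_le ((2 : ℝ) ^ (j + q) * (F.u ω' k + (F.T ω' : ℝ) / 2 ^ J * F.d ω' k))
    have b2 := Int.lt_floor_add_one
      ((2 : ℝ) ^ (j + q) * (F.u ω' k + (F.T ω' : ℝ) / 2 ^ J * F.d ω' k))
    have g1 := Int.floor_le ((2 : ℝ) ^ j * (Int.fract (2 ^ q * F.u ω k) +
        (T' ω : ℝ) / 2 ^ (J - q) * Int.fract (2 ^ q * F.d ω k)))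
    have g2 := Int.lt_floor_add_one ((2 : ℝ) ^ j * (Int.fract (2 ^ q * F.u ω k) +
        (T' ω : ℝ) / 2 ^ (J - q) * Int.fract (2 ^ q * F.d ω k)))
    have g3 := Int.floor_le ((2 : ℝ) ^ j * (Int.fract (2 ^ q * F.u ω' k) +
        (T' ω' : ℝ) / 2 ^ (J - q) * Int.fract (2 ^ q * F.d ω' k)))
    have g4 := Int.lt_floor_add_one ((2 : ℝ) ^ j * (Int.fract (2 ^ q * F.u ω' k) +
        (T' ω' : ℝ) / 2 ^ (J - q) * Int.fract (2 ^ q * F.d ω' k)))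
    rw [h2] at a1 a2
    rw [abs_le] at h3 h4
    rw [abs_le]
    push_cast
    constructor <;> linarith [h3.1, h3.2, h4.1, h4.2]
  have f2 : CH F.p (F.X (j + q)) (fun ω => (F.T ω, Z' ω)) ≤
      CH F.p Y (fun ω => (F.T ω, Z' ω)) + cc m := by
    refine CH_le_round hp (F.X (j + q)) Y (fun ω => (F.T ω, Z' ω)) fun ω ω' _ _ hW h k => ?_
    have h1 := congrFun h k
    have h2 : ⌊(2 : ℝ) ^ j * (Int.fract (2 ^ q * F.u ω k) +
        (T' ω : ℝ) / 2 ^ (J - q) * Int.fract (2 ^ q * F.d ω k))⌋ =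
      ⌊(2 : ℝ) ^ j * (Int.fract (2 ^ q * F.u ω' k) +
        (T' ω' : ℝ) / 2 ^ (J - q) * Int.fract (2 ^ q * F.d ω' k))⌋ := h1
    have h3 := hclose ω k
    have h4 := hclose ω' k
    rw [hshift ω ω' hW k] at h3
    change |((⌊(2 : ℝ) ^ (j + q) * (F.u ω k + (F.T ω : ℝ) / 2 ^ J * F.d ω k)⌋ -
        ⌊(2 : ℝ) ^ (j + q) * (F.u ω' k + (F.T ω' : ℝ) / 2 ^ J * F.d ω' k)⌋ : ℤ) : ℝ)| ≤ 49
    have a1 := Int.floor_le ((2 : ℝ) ^ (j + q) * (F.u ω k + (F.T ω : ℝ) / 2 ^ J * F.d ω k))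
    have a2 := Int.lt_floor_add_one
      ((2 : ℝ) ^ (j + q) * (F.u ω k + (F.T ω : ℝ) / 2 ^ J * F.d ω k))
    have b1 := Int.floor_le ((2 : ℝ) ^ (j + q) * (F.u ω' k + (F.T ω' : ℝ) / 2 ^ J * F.d ω' k))
    have b2 := Int.lt_floor_add_one
      ((2 : ℝ) ^ (j + q) * (F.u ω' k + (F.T ω' : ℝ) / 2 ^ J * F.d ω' k))
    have g1 := Int.floor_le ((2 : ℝ) ^ j * (Int.fract (2 ^ q * F.u ω k) +
        (T' ω : ℝ) / 2 ^ (J - q) * Int.fract (2 ^ q * F.d ω k)))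
    have g2 := Int.lt_floor_add_one ((2 : ℝ) ^ j * (Int.fract (2 ^ q * F.u ω k) +
        (T' ω : ℝ) / 2 ^ (J - q) * Int.fract (2 ^ q * F.d ω k)))
    have g3 := Int.floor_le ((2 : ℝ) ^ j * (Int.fract (2 ^ q * F.u ω' k) +
        (T' ω' : ℝ) / 2 ^ (J - q) * Int.fract (2 ^ q * F.d ω' k)))
    have g4 := Int.lt_floor_add_one ((2 : ℝ) ^ j * (Int.fract (2 ^ q * F.u ω' k) +
        (T' ω' : ℝ) / 2 ^ (J - q) * Int.fract (2 ^ q * F.d ω' k)))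
    rw [h2] at g1 g2
    rw [abs_le] at h3 h4
    rw [abs_le]
    push_cast
    constructor <;> linarith [h3.1, h3.2, h4.1, h4.2]
  -- the directions
  set DD : F.Ω → Fin m → ℤ := (F.tub q hq).D (J - q) with hDD
  have hD : CH F.p DD Z' = CH F.p (F.D J) Z' := by
    have key : ∀ (ω : F.Ω) (i : Fin m), DD ω i = F.D J ω i - 2 ^ (J - q) * (F.L q ω).2 i := by
      intro ω i
      change ⌊(2 : ℝ) ^ (J - q) * Int.fract (2 ^ q * F.d ω i)⌋ =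
        ⌊(2 : ℝ) ^ J * F.d ω i⌋ - 2 ^ (J - q) * ⌊(2 : ℝ) ^ q * F.d ω i⌋
      rw [floor_fract, Nat.add_sub_cancel' hq]
    refine CH_congr hp0 ?_ ?_ (fun _ _ _ _ h => h) (fun _ _ _ _ h => h)
    · intro ω ω' _ _ h
      have h1 := Prod.ext_iff.mp h
      have h2 : F.L q ω = F.L q ω' := (Prod.ext_iff.mp h1.2).1
      funext i
      have h3 : DD ω i = DD ω' i := congrFun h1.1 i
      have k1 := key ω i
      have k2 := key ω' i
      rw [h2] at k1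
      omega
    · intro ω ω' _ _ h
      have h1 := Prod.ext_iff.mp h
      have h2 : F.L q ω = F.L q ω' := (Prod.ext_iff.mp h1.2).1
      funext i
      have h3 : F.D J ω i = F.D J ω' i := congrFun h1.1 i
      have k1 := key ω i
      have k2 := key ω' i
      rw [h2] at k1
      omega
  have hW : CH F.p (F.X (j + q)) (fun ω => (F.L q ω, F.W ω)) =
      CH F.p (F.X (j + q)) (fun ω => (F.T ω, Z' ω)) := by
    refine CH_congr hp0 (fun _ _ _ _ h => (Prod.ext_iff.mp h).1)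
      (fun _ _ _ _ h => (Prod.ext_iff.mp h).1) ?_ ?_
    · intro ω ω' _ _ h
      simp only [Fam.W, Prod.mk.injEq] at h
      simp only [hZ', Prod.mk.injEq]
      exact ⟨h.2.1, h.1, h.2.2⟩
    · intro ω ω' _ _ h
      simp only [hZ', Prod.mk.injEq] at h
      simp only [Fam.W, Prod.mk.injEq]
      exact ⟨h.2.1, h.1, h.2.2⟩
  have hV' : (F.tub q hq).V j = CH F.p DD Z' -
      CH F.p Y (fun ω => (T' ω, Z' ω)) - m * ((((J - q : ℕ) : ℝ) - j) * Real.log 2) := rfl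
  rw [hV', hD, hW, hq', abs_le]
  constructor <;> linarith

end Pool.KA
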